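import Mathlib

set_option autoImplicit false

namespace Pool.Agent.Results.MP_a87573_co.Roots

open Polynomial Finset

/-- Number of edge coverings with exactly `i` edges. -/
noncomputable def e {V : Type} (G : SimpleGraph V) (i : ℕ) : ℕ :=
  {S : Finset (Sym2 V) | (S : Set (Sym2 V)) ⊆ G.edgeSet ∧ (∀ v, ∃ s ∈ S, v ∈ s) ∧ #S = i}.ncard

/-- The edge cover polynomial. -/
noncomputable def E {V : Type} (G : SimpleGraph V) : ℂ[X] :=
  ∑ i ∈ range (G.edgeSet.ncard + 1), C (e G i : ℂ) * X ^ i

theorem alg (P : ℂ[X]) (m d : ℕ) (hd : 1 ≤ d) (h0 : P.coeff 0 = 0) (hm : P.natDegree ≤ m)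
    (h : ∀ i, m < i + d → P.coeff i = m.choose i) : d ≤ #P.roots.toFinset := by
  classical
  set R := (X + 1) ^ m - P with hR
  have hR0 : R ≠ 0 := fun e => by
    have := congrArg (coeff · 0) e
    simp [hR, coeff_X_add_one_pow, h0] at this
  have hR1 : R.natDegree + d ≤ m := by
    by_contra hc
    apply leadingCoeff_ne_zero.2 hR0
    rw [leadingCoeff, hR, coeff_sub, coeff_X_add_one_pow, h _ (not_le.1 hc), sub_self]
  have hP : P.natDegree = m := natDegree_eq_of_le_of_coeff_ne_zero hm (by
    rw [h m (by omega)]; simp)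
  have hP0 : P ≠ 0 := fun e => by
    rw [e, natDegree_zero] at hP
    omega
  set W := C (m : ℂ) * P - (X + 1) * derivative P with hW
  have e1 : W = (X + 1) * derivative R - C (m : ℂ) * R := by
    obtain ⟨k, rfl⟩ : ∃ k, m = k + 1 := ⟨m - 1, by omega⟩
    simp only [hW, hR, derivative_sub, derivative_pow_succ, derivative_add, derivative_X,
      derivative_one, Nat.cast_add, Nat.cast_one]
    ring
  have e2 : ∀ i, W.coeff i = R.coeff (i + 1) * (i + 1) + R.coeff i * (i - m) := fun i => by
    rw [e1, add_mul, one_mul, coeff_sub, coeff_add, coeff_C_mul, coeff_derivative]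
    rcases i with _ | i
    · simp; ring
    · rw [coeff_X_mul, coeff_derivative]; push_cast; ring
  have hW0 : W ≠ 0 := fun e => by
    have := e2 R.natDegree
    rw [e, coeff_zero, coeff_natDegree_succ_eq_zero, zero_mul, zero_add] at this
    refine mul_ne_zero (leadingCoeff_ne_zero.2 hR0) (sub_ne_zero.2 ?_) this.symm
    exact_mod_cast (by omega : R.natDegree ≠ m)
  have hW1 : W.natDegree ≤ R.natDegree := natDegree_le_iff_coeff_eq_zero.2 fun i hi => by
    rw [e2, coeff_eq_zero_of_natDegree_lt hi, coeff_eq_zero_of_natDegree_lt (by omega)]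
    simp
  have key : P.roots ≤ W.roots + P.roots.toFinset.val := by
    refine Multiset.le_iff_count.2 fun z => ?_
    rw [Multiset.count_add, count_roots, count_roots]
    by_cases hz : z ∈ P.roots
    · rw [Multiset.count_eq_one_of_mem P.roots.toFinset.nodup (Multiset.mem_toFinset.2 hz)]
      have : P.rootMultiplicity z - 1 ≤ W.rootMultiplicity z := by
        refine (le_rootMultiplicity_iff hW0).2 (dvd_sub (Dvd.dvd.mul_left ?_ _) (Dvd.dvd.mul_left ?_ _))
        · exact (pow_dvd_pow _ (Nat.sub_le _ _)).trans (pow_rootMultiplicity_dvd P z)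
        · exact pow_sub_one_dvd_derivative_of_pow_dvd (pow_rootMultiplicity_dvd P z)
      omega
    · rw [rootMultiplicity_eq_zero fun h => hz ((mem_roots hP0).2 h)]
      exact Nat.zero_le _
  have := Multiset.card_le_card key
  rw [Multiset.card_add, IsAlgClosed.card_roots_eq_natDegree] at this
  have := W.card_roots'
  change _ ≤ Multiset.card P.roots.toFinset.val
  omega

theorem result (V : Type) [Fintype V] (G : SimpleGraph V) [DecidableRel G.Adj] :
    G.minDegree ≤ {z : ℂ | (E G).eval z = 0}.ncard := by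
  classical
  rcases Nat.eq_zero_or_pos G.minDegree with h | h
  · omega
  have hm : G.edgeSet.ncard = #G.edgeFinset := by
    rw [← G.coe_edgeFinset, Set.ncard_coe_finset]
  have hc : ∀ i, (E G).coeff i = if i < #G.edgeFinset + 1 then (e G i : ℂ) else 0 := fun i => by
    simp only [E, hm, finsetSum_coeff, coeff_C_mul_X_pow, sum_ite_eq, mem_range]
  have h1 : ∀ i, #G.edgeFinset < i + G.minDegree → (E G).coeff i = (#G.edgeFinset).choose i := by
    intro i hi
    rw [hc]
    split_ifs with hl
    · rw [← card_powersetCard, ← Set.ncard_coe_finset, e]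
      refine congrArg (fun s : Set (Finset (Sym2 V)) => (s.ncard : ℂ)) (Set.ext fun S => ?_)
      simp only [Set.mem_ofPred_eq, mem_coe, mem_powersetCard, ← G.coe_edgeFinset, coe_subset]
      refine ⟨fun h => ⟨h.1, h.2.2⟩, fun h => ⟨h.1, fun v => ?_, h.2⟩⟩
      by_contra hv
      push Not at hv
      have a : G.incidenceFinset v ⊆ G.edgeFinset \ S := fun s hs => by
        rw [SimpleGraph.mem_incidenceFinset] at hs
        exact mem_sdiff.2 ⟨SimpleGraph.mem_edgeFinset.2 hs.1, fun h => hv s h hs.2⟩
      have b := card_le_card a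
      rw [SimpleGraph.card_incidenceFinset_eq_degree, card_sdiff_of_subset h.1, h.2] at b
      have := G.minDegree_le_degree v
      omega
    · rw [Nat.choose_eq_zero_of_lt (by omega), Nat.cast_zero]
  have h0 : E G ≠ 0 := fun e => by
    have := h1 #G.edgeFinset (by omega)
    simp [e] at this
  have : {z : ℂ | (E G).eval z = 0} = (E G).roots.toFinset := by
    ext z
    simp [h0]
  rw [this, Set.ncard_coe_finset]
  refine alg _ #G.edgeFinset _ h ?_ (natDegree_le_iff_coeff_eq_zero.2 fun i hi => by
    rw [hc, if_neg (by omega)]) h1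
  rw [hc, if_pos (by omega), e, Nat.cast_eq_zero]
  rcases isEmpty_or_nonempty V with hV | ⟨⟨v⟩⟩
  · simp [SimpleGraph.minDegree] at h
  · refine (congrArg Set.ncard (Set.eq_empty_of_forall_notMem ?_)).trans (Set.ncard_empty _)
    rintro S ⟨-, h2, h3⟩
    obtain ⟨s, hs, -⟩ := h2 v
    rw [card_eq_zero.1 h3] at hs
    exact notMem_empty _ hs

end Pool.Agent.Results.MP_a87573_co.Roots
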